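import Mathlib
import Pool.Agent.Helper12.NonIso

/-!
# Covering the non-isomorphic pairs by tractable sets

A set of pairs of graphs on `n` vertices is *tractable* here if it is closed (edge by edge, in both
graphs) under some Boolean operation, of any arity, which is neither a projection nor the negation
of a projection; by Schaefer's theorem these are the closure conditions that make a Boolean
constraint satisfaction problem easy, and Post's lemma (proved in `Pool.Agent.Helper12.NonIso`) reduces them to AND, OR,
majority and `x + y + z`, that is to Horn, dual Horn, 2-CNF and linear systems, of any size.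

If the set of all pairs of NON-isomorphic graphs on `n` vertices is a union of `t` tractable sets,
then `t ≥ 2 ^ (⌊(n - 4) / 20⌋ - 1)`.

Idea: pairs of graphs which are unions of four strands; `N` switches may cross the first two
strands, and `N` commutator blocks cross them if `u j * v j = 1`. The pair with parameters
`(x, y, u, v)` is non-isomorphic exactly if `∑ x + ∑ y + u ⬝ v` is odd, which holds for half of the
`16 ^ N` parameters. A set closed under AND or OR contains at most one non-isomorphic pair with
given `x + y, u, v`; for majority and for `x + y + z` one gets two families of vectors over the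
field with two elements that are orthogonal to each other. So a tractable set contains at most
`8 ^ N` of the pairs.
-/

namespace Pool.Agent.Results.MP_128e7d_lc.NonIsoCovers

variable {V : Type}

open Classical in
/-- The graph obtained from the graphs `G i` by applying the Boolean operation `f` of arity `k`
to the indicator of each edge. -/
def app {k : ℕ} (f : (Fin k → Bool) → Bool) (G : Fin k → SimpleGraph V) : SimpleGraph V where
  Adj u v := u ≠ v ∧ f (fun i => decide ((G i).Adj u v)) = true
  symm := ⟨fun u v h => ⟨h.1.symm, by simpa only [SimpleGraph.adj_comm] using h.2⟩⟩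
  loopless := ⟨fun _ h => h.1 rfl⟩

/-- The set `S` of pairs of graphs is closed under the operation `f`. -/
def Closed {k : ℕ} (f : (Fin k → Bool) → Bool) (S : Set (SimpleGraph V × SimpleGraph V)) : Prop :=
  ∀ P : Fin k → SimpleGraph V × SimpleGraph V, (∀ i, P i ∈ S) →
    (app f (fun i => (P i).1), app f (fun i => (P i).2)) ∈ S

/-- `S` is closed under some Boolean operation, of any arity, that is neither a projection nor
the negation of a projection. -/
def Tractable (S : Set (SimpleGraph V × SimpleGraph V)) : Prop :=
  ∃ (k : ℕ) (f : (Fin k → Bool) → Bool), (∀ i, f ≠ fun x => x i) ∧ (∀ i, f ≠ fun x => !x i) ∧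
    Closed f S

/-- The set of all pairs of non-isomorphic graphs on `n` vertices is a union of `t` tractable
sets. -/
def NonIsoCover (n t : ℕ) : Prop :=
  ∃ S : Fin t → Set (SimpleGraph (Fin n) × SimpleGraph (Fin n)), (∀ i, Tractable (S i)) ∧
    ∀ G H : SimpleGraph (Fin n), (¬ Nonempty (G ≃g H)) ↔ ∃ i, (G, H) ∈ S i

theorem result (n t : ℕ) (hn : 24 ≤ n) (h : NonIsoCover n t) : 2 ^ ((n - 4) / 20) ≤ 2 * t :=
  Pool.Agent.Helper12.NonIso.main n t hn h

end Pool.Agent.Results.MP_128e7d_lc.NonIsoCovers
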