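import Pool.Agent.V11248.Sts.StsAct

/-!
# Algebraic proofs of the non-isomorphism of Steiner triple systems need degree of order `log n`

There is a constant `C` such that for every `d ≥ 1` there are two Steiner triple systems with the
same number `n = 3 ^ r` of points, `r ≤ C d`, whose block graphs are not isomorphic, but

* the polynomial calculus over no field of characteristic different from `3` has a refutation of
  degree `d` of the isomorphism of the two block graphs;
* the Positivstellensatz calculus over the reals (the polynomial calculus together with sums of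
  squares) has no refutation of degree `d` either.

Both systems are Hall triple systems: for every point there is an automorphism of order two that
fixes only this point. A Steiner triple system with `n` points has at most `log₂ (n + 1)`
generators, so that degree of order `log n` is the natural scale.
-/

set_option autoImplicit false

namespace Pool.Agent.Results.MP_128e7d_lc.SteinerProofs

open Pool.Agent.V11248.Sts Pool.Agent.TH658.Sos

theorem result : ∃ C : ℕ, ∀ d : ℕ, 1 ≤ d →
    ∃ (P : Type) (_ : Fintype P) (S T : Finset (Finset P)) (r : ℕ),
      r ≤ C * d ∧ Fintype.card P = 3 ^ r ∧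
      IsSteiner S ∧ IsHall S ∧ IsSteiner T ∧ IsHall T ∧
      IsEmpty (blockGraph S ≃g blockGraph T) ∧
      (∀ (K : Type) [Field K], (3 : K) ≠ 0 → ¬ PCRefutes K (blockGraph S) (blockGraph T) d) ∧
      ¬ PosRefutes (blockGraph S) (blockGraph T) d := by
  refine ⟨2023, fun d hd => ?_⟩
  obtain ⟨P, iP, S, T, r, hr, hP, h1, h2, h3, h4, h5, X, L, i1, i2, i3, i4, Y, act, hT, hc, hK,
    m, hm⟩ := exists_pair (6 * (d + 1)) (by omega)
  refine ⟨P, iP, S, T, r, by omega, hP, h1, h2, h3, h4, h5, ?_, ?_⟩
  · intro K _ hK3
    refine act.not_pcRefutes K ?_ ?_
    · rw [hm, Nat.cast_pow]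
      exact pow_ne_zero _ (by exact_mod_cast hK3)
    · rw [hc, hK]
      omega
  · refine act.not_posRefutes ?_
    rw [hc, hK]
    omega

end Pool.Agent.Results.MP_128e7d_lc.SteinerProofs
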