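import Pool.Agent.TH658.Dg.TMain

/-!
# Algebraic proofs of the non-isomorphism of tournaments need linear degree

There is a constant `C` such that for every `d ≥ 1` there are two non-isomorphic tournaments on one
set of at most `C d` vertices such that

* the polynomial calculus over **no field** (of any characteristic) has a refutation of degree `d` of
  the natural system of polynomial equations for the isomorphisms of the two tournaments;
* the Positivstellensatz calculus over the reals (the polynomial calculus together with sums of
  squares; it is stronger than the sum-of-squares or Lasserre hierarchy) has no refutation of degree
  `d` either.

So on tournaments with `n` vertices these proof systems need degree proportional to `n`, although the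
isomorphism of tournaments is decidable in time `n ^ O(log n)` (Babai and Luks). The automorphism
groups of tournaments are solvable and of odd order, so that the usual constructions of hard pairs of
graphs (linear systems modulo two on expanders) are impossible: the tournaments here are composed of
linear systems modulo `15`; over fields of characteristic different from `3` the part modulo `3` is
used, and over fields of characteristic `3` the part modulo `5`.
-/

set_option autoImplicit false

namespace Pool.Agent.Results.MP_128e7d_lc.TournamentProofs

open Pool.Agent.TH658.Dg

theorem result : ∃ C : ℕ, ∀ d : ℕ, 1 ≤ d →
    ∃ (V : Type) (_ : Fintype V) (T T' : V → V → Prop),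
      Fintype.card V ≤ C * d ∧ IsTournament T ∧ IsTournament T' ∧
      (¬ ∃ φ : V ≃ V, ∀ x y, T x y ↔ T' (φ x) (φ y)) ∧
      (∀ (K : Type) [Field K], ¬ PCRefutes K T T' d) ∧ ¬ PosRefutes T T' d :=
  ⟨10 ^ 18, mainProofs⟩

end Pool.Agent.Results.MP_128e7d_lc.TournamentProofs
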