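import Pool.Agent.V11163.GI.TwFin

/-!
# Graph isomorphism by word circuits: number of reads and treewidth

The input consists of the `n (n - 1)` adjacency bits of two graphs on `n` vertices (`Var n`, `IsIso`,
`Pool/Agent/H526R2/GI/Defs.lean`). We consider (non-uniform) straight-line programs (`WCirc`,
`Pool/Agent/Y631/WcModel.lean`): each of the gates holds a word (an element of a finite set `Z`),
which may be any value that is allowed by an ARBITRARY relation to at most `κ` input bits and words
of earlier gates (so a gate may compute any function, or guess an arbitrary word). The relevant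
parameters are

* the number of reads `C.reads`: the number of wires from input bits to gates,
* the treewidth `θ` of the graph of the gates (whose edges are the wires between gates; the input
  bits are deleted). The number of gates is not bounded. Programs with few registers have small
  treewidth, but circuits of small treewidth may use arbitrarily many words at the same time.

**Result.** Circuits with words of `w` bits and at most `r n (n - 1)` reads which decide isomorphism
(or nonisomorphism) need `w (θ + 1) ≥ n ^ 2 / 2 ^ (O (r))`, for constant `r` linear in the length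
of the input. So with treewidth times word length at most `n ^ (2 - ε)` there are `Ω (ε n ^ 2 log n)`
reads. This holds for nondeterministic circuits for isomorphism, also for random ones which accept no
pair of nonisomorphic graphs and accept each pair of isomorphic graphs with probability at least
`2 ^ (- n ^ (1 - ε))` only, and for unambiguous, in particular for deterministic, circuits for
nonisomorphism.

**Proof.** By the library lemma `WCirc.core` (the circuit is cut into `O (r ^ 2)` parts by the removal
of `O (r ^ 2 (θ + 1))` gates) there are sets `A` and `E` of `n ^ 2 / 2 ^ (O (r))` bits of the first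
and of the second graph which are read on different sides. Let `σ` be a relabelling. The pairs
`(x, σ y)` of graphs which are fixed outside of the set `F` of the pairs `e ∈ A` with `σ e ∈ E` form a
communication matrix, and a set of pairwise nonisomorphic graphs gives a submatrix which is an
identity matrix (isomorphism) or its complement (nonisomorphism); there are at least
`2 ^ |F| / n !` such graphs. By averaging some `σ` has `|F| ≥ |A| |E| / (n (n - 1) / 2)`. For random
circuits one needs that `|F| ≥ c n ^ 2` for all but a `2 ^ (- c n)` fraction of the `σ`: `A` contains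
`Ω (n)` disjoint matchings with `Ω (n)` pairs (`exists_matchings`), each of them has `Ω (n)` pairs
with image in `E` with probability `1 - 2 ^ (- c n)` (by the moment bound `W896.FD.moment` of the
starting library), and few relabellings fail for more than half of the matchings (`few_bad`).
-/

set_option autoImplicit false

namespace Pool.Agent.Results.MP_128e7d_lc.TreewidthTimesReads

open Pool.Agent.H526R2.GI Pool.Agent.Y631.Wc Pool.Agent.V11163.GI

/-- (A) Let `1 ≤ r`, `2 ≤ L` and `K = 10000 r² (κ + 1) (θ + 1)`. Let the circuits have fan-in at most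
`κ`, treewidth at most `θ`, at most `r n (n - 1)` reads, and at most `L` possible words.
1. If `C` (nondeterministic) accepts exactly the pairs of isomorphic graphs on `n` vertices, or if `C`
   has at most one accepting computation for each input (which holds if the gates compute functions,
   `Deterministic.unambiguous`) and accepts exactly the pairs of nonisomorphic graphs, then
   `2 ^ ((n (n - 1) / 2) / 4 ^ (24 r)) ≤ n ! L ^ K`.
2. If no member of a finite family `C i` accepts a pair of nonisomorphic graphs, and every pair of
   isomorphic graphs is accepted by at least a `2 ^ (- μ)` fraction of the `C i`, where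
   `μ + 2 ≤ n / 2 ^ (48 r + 12)`, then `2 ^ (n ^ 2 / 2 ^ (48 r + 8)) ≤ 2 ^ (μ + 1) n ! L ^ K`.

(B) For all `κ` and `0 < ε ≤ 1`, all large `n`, and all `θ` and `w ≥ 1` with
`(θ + 1) w ≤ n ^ (2 - ε)`: if a finite family of circuits of fan-in `κ`, with words of `w` bits and of
treewidth at most `θ`, accepts no pair of nonisomorphic graphs, and every pair of isomorphic graphs
with probability at least `2 ^ (- n ^ (1 - ε))`, then some circuit of the family has at least
`(ε / 200) n ^ 2 log₂ n` reads. The same holds for each unambiguous circuit (of this fan-in, word length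
and treewidth) which accepts exactly the pairs of nonisomorphic graphs. -/
theorem result :
    (∀ {n r κ θ L K : ℕ} (_ : 1 ≤ r) (_ : 2 ≤ L) (_ : K = 10000 * r ^ 2 * (κ + 1) * (θ + 1)),
      (∀ (Z : Type) [Fintype Z] (_ : Fintype.card Z ≤ L) (C : WCirc (Var n) Bool Z)
        (_ : C.FanIn κ) (_ : C.TreewidthLE θ) (_ : C.reads ≤ r * (n * (n - 1))),
        ((∀ z, C.Accepts z ↔ IsIso z) ∨ (C.Unambiguous ∧ ∀ z, C.Accepts z ↔ ¬ IsIso z)) →
          2 ^ (n * (n - 1) / 2 / 4 ^ (24 * r)) ≤ n.factorial * L ^ K) ∧
      ∀ (μ : ℕ) (R : Type) [Fintype R] [Nonempty R] (Z : R → Type) [∀ i, Fintype (Z i)]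
        (_ : ∀ i, Fintype.card (Z i) ≤ L) (C : ∀ i, WCirc (Var n) Bool (Z i))
        (_ : ∀ i, (C i).FanIn κ) (_ : ∀ i, (C i).TreewidthLE θ)
        (_ : ∀ i, (C i).reads ≤ r * (n * (n - 1))) (_ : μ + 2 ≤ n / 2 ^ (48 * r + 12)),
        (∀ i z, (C i).Accepts z → IsIso z) →
        (∀ z, IsIso z → Nat.card R ≤ 2 ^ μ * Nat.card {i // (C i).Accepts z}) →
          2 ^ (n ^ 2 / 2 ^ (48 * r + 8)) ≤ 2 ^ (μ + 1) * (n.factorial * L ^ K)) ∧
    ∀ (κ : ℕ) (ε : ℝ), 0 < ε → ε ≤ 1 → ∃ n₀ : ℕ, ∀ n ≥ n₀, ∀ θ w μ : ℕ, 1 ≤ w →
      (((θ + 1) * w : ℕ) : ℝ) ≤ (n : ℝ) ^ (2 - ε) → (μ : ℝ) ≤ (n : ℝ) ^ (1 - ε) →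
      (∀ (R : Type) [Fintype R] [Nonempty R] (Z : R → Type) [∀ i, Fintype (Z i)]
        (C : ∀ i, WCirc (Var n) Bool (Z i)),
        (∀ i, Fintype.card (Z i) ≤ 2 ^ w ∧ (C i).FanIn κ ∧ (C i).TreewidthLE θ) →
        (∀ i z, (C i).Accepts z → IsIso z) →
        (∀ z, IsIso z → Nat.card R ≤ 2 ^ μ * Nat.card {i // (C i).Accepts z}) →
        ∃ i, ε / 200 * (n ^ 2 * Real.logb 2 n) ≤ (C i).reads) ∧
      ∀ (Z : Type) [Fintype Z] (C : WCirc (Var n) Bool Z), Fintype.card Z ≤ 2 ^ w →
        C.FanIn κ → C.TreewidthLE θ → C.Unambiguous → (∀ z, C.Accepts z ↔ ¬ IsIso z) →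
        ε / 200 * (n ^ 2 * Real.logb 2 n) ≤ C.reads :=
  ⟨fun hr hL hK => ⟨fun Z _ hZ C hκ hθ hR hC => by
      have h := tw_bounds hr hL hZ C hκ hθ hR hK hC
      rwa [card_Pr'] at h,
    fun μ R _ _ Z _ hZ C hκ hθ hR hμ hno hyes =>
      tw_random hr hL R Z hZ C hκ hθ hR hK hμ hno hyes⟩,
    asymptotic⟩

end Pool.Agent.Results.MP_128e7d_lc.TreewidthTimesReads
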